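import Pool.Agent.Helper19.BK.Pi

/-!
# BK for countably many independent random variables and countable families of pairs
-/

set_option autoImplicit false

namespace Pool.Agent.Helper19.BK

open MeasureTheory ProbabilityTheory
open scoped ENNReal

variable {E κ Ω : Type*} [MeasurableSpace Ω] {P : Measure Ω} {X : E → Ω → ℝ} {f : ℝ → ℝ≥0∞}

theorem law_fin (U : Finset E) (hX : ∀ e, Measurable (X e)) (hi : iIndepFun X P) :
    MeasurePreserving (fun ω (i : U) => X i ω) P (Measure.pi fun i : U => P.map (X i)) := by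
  refine ⟨measurable_pi_lambda _ fun i => hX i, ?_⟩
  have h1 : iIndepFun (fun (i : U) => X i) P := hi.precomp Subtype.val_injective
  have := h1.isProbabilityMeasure
  exact (iIndepFun_iff_map_fun_eq_pi_map (fun i : U => (hX i).aemeasurable)).1 h1

theorem bk_fin [Finite κ] (hX : ∀ e, Measurable (X e)) (hi : iIndepFun X P) (hf : Measurable f)
    {A B : κ → Finset E} (hd : ∀ k, Disjoint (A k) (B k)) :
    ∫⁻ ω, ⨆ k, (∏ e ∈ A k, f (X e ω)) * ∏ e ∈ B k, f (X e ω) ∂P ≤
      (∫⁻ ω, ⨆ k, ∏ e ∈ A k, f (X e ω) ∂P) * ∫⁻ ω, ⨆ k, ∏ e ∈ B k, f (X e ω) ∂P := by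
  classical
  have hP := hi.isProbabilityMeasure
  have := Fintype.ofFinite κ
  obtain ⟨U, hU⟩ : ∃ U : Finset E, U = Finset.univ.biUnion fun k => A k ∪ B k := ⟨_, rfl⟩
  have hUA : ∀ k, ∀ e ∈ A k, e ∈ U := fun k e he => by
    rw [hU, Finset.mem_biUnion]
    exact ⟨k, Finset.mem_univ _, Finset.mem_union_left _ he⟩
  have hUB : ∀ k, ∀ e ∈ B k, e ∈ U := fun k e he => by
    rw [hU, Finset.mem_biUnion]
    exact ⟨k, Finset.mem_univ _, Finset.mem_union_right _ he⟩
  have hlaw := law_fin (P := P) (X := X) U hX hi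
  have hprob : ∀ i : U, IsProbabilityMeasure (P.map (X i)) := fun i =>
    Measure.isProbabilityMeasure_map (hX i).aemeasurable
  have hm : ∀ C : κ → Finset E, (∀ k, ∀ e ∈ C k, e ∈ U) → ∀ x : U → ℝ, ∀ k,
      ∏ i ∈ (C k).subtype (· ∈ U), f (x i) =
        ∏ e ∈ C k, f (if h : e ∈ U then x ⟨e, h⟩ else 0) := by
    intro C hC x k
    have h1 := Finset.prod_subtype_of_mem
      (fun e => f (if h : e ∈ U then x ⟨e, h⟩ else 0)) (hC k)
    rw [← h1]
    refine Finset.prod_congr rfl fun i _ => ?_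
    rw [dif_pos i.2]
  have hc : ∀ C : κ → Finset E, (∀ k, ∀ e ∈ C k, e ∈ U) → ∀ ω k,
      ∏ i ∈ (C k).subtype (· ∈ U), f (X i ω) = ∏ e ∈ C k, f (X e ω) := by
    intro C hC ω k
    exact Finset.prod_subtype_of_mem (fun e => f (X e ω)) (hC k)
  have hd' : ∀ k, Disjoint ((A k).subtype (· ∈ U)) ((B k).subtype (· ∈ U)) := by
    intro k
    rw [Finset.disjoint_left]
    intro i h1 h2
    rw [Finset.mem_subtype] at h1 h2
    exact Finset.disjoint_left.1 (hd k) h1 h2
  have key := bk_pi (fun i : U => P.map (X i)) hf hd'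
  have hmeas : ∀ C : κ → Finset U, Measurable fun x : U → ℝ => ⨆ k, ∏ e ∈ C k, f (x e) := fun C =>
    Measurable.iSup fun k => Finset.measurable_prod _ fun i _ => hf.comp (measurable_pi_apply i)
  have hmeas2 : Measurable fun x : U → ℝ => ⨆ k, (∏ i ∈ (A k).subtype (· ∈ U), f (x i)) *
      ∏ i ∈ (B k).subtype (· ∈ U), f (x i) := Measurable.iSup fun k =>
    (Finset.measurable_prod _ fun i _ => hf.comp (measurable_pi_apply i)).mul
      (Finset.measurable_prod _ fun i _ => hf.comp (measurable_pi_apply i))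
  rw [← hlaw.lintegral_comp (hmeas _), ← hlaw.lintegral_comp (hmeas _),
    ← hlaw.lintegral_comp hmeas2] at key
  simpa only [hc A hUA, hc B hUB] using key

/-- **BK** for independent random variables -/
theorem bk [Countable κ] (hX : ∀ e, Measurable (X e)) (hi : iIndepFun X P) (hf : Measurable f)
    {A B : κ → Finset E} (hd : ∀ k, Disjoint (A k) (B k)) :
    ∫⁻ ω, ⨆ k, (∏ e ∈ A k, f (X e ω)) * ∏ e ∈ B k, f (X e ω) ∂P ≤
      (∫⁻ ω, ⨆ k, ∏ e ∈ A k, f (X e ω) ∂P) * ∫⁻ ω, ⨆ k, ∏ e ∈ B k, f (X e ω) ∂P := by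
  have hm : ∀ C : Finset E, Measurable fun ω => ∏ e ∈ C, f (X e ω) := fun C =>
    Finset.measurable_prod _ fun i _ => hf.comp (hX i)
  have h1 : ∀ ω, ⨆ k, (∏ e ∈ A k, f (X e ω)) * ∏ e ∈ B k, f (X e ω) =
      ⨆ K : Finset κ, ⨆ k : K, (∏ e ∈ A k, f (X e ω)) * ∏ e ∈ B k, f (X e ω) := by
    intro ω
    rw [iSup_eq_iSup_finset]
    refine iSup_congr fun K => ?_
    exact iSup_subtype'
  simp only [h1]
  rw [lintegral_iSup_directed]
  · refine iSup_le fun K => ?_
    have h2 := bk_fin (κ := K) hX hi hf (A := fun k => A k) (B := fun k => B k)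
      (fun k => hd k)
    refine h2.trans (mul_le_mul' ?_ ?_)
    · exact lintegral_mono fun ω => iSup_le fun k => le_iSup (fun k => ∏ e ∈ A k, f (X e ω)) k.1
    · exact lintegral_mono fun ω => iSup_le fun k => le_iSup (fun k => ∏ e ∈ B k, f (X e ω)) k.1
  · intro K
    exact (Measurable.iSup fun k => (hm _).mul (hm _)).aemeasurable
  · intro K K'
    classical
    refine ⟨K ∪ K', fun ω => iSup_le fun k => ?_, fun ω => iSup_le fun k => ?_⟩
    · exact le_iSup (fun k : (K ∪ K' : Finset κ) => (∏ e ∈ A k, f (X e ω)) *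
        ∏ e ∈ B k, f (X e ω)) ⟨k.1, Finset.mem_union_left _ k.2⟩
    · exact le_iSup (fun k : (K ∪ K' : Finset κ) => (∏ e ∈ A k, f (X e ω)) *
        ∏ e ∈ B k, f (X e ω)) ⟨k.1, Finset.mem_union_right _ k.2⟩

end Pool.Agent.Helper19.BK
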