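import Mathlib

/-!
# BK: the van den Berg-Kesten inequality for products along disjoint sets

`ι` finite, independent weights `x e`, `f ≥ 0`; a countable family of pairs `(A k, B k)` of
disjoint finite sets.  Then
`E sup_k ∏_(A k) f (x e) ∏_(B k) f (x e) ≤ E sup_k ∏_(A k) f (x e) * E sup_k ∏_(B k) f (x e)`.

Proof: the weights of the `B` part are replaced by independent copies one after the other.  For one
edge `e` the supremum is `max (α, β f x_e, γ f x_e)` with `α, β, γ` independent of `x_e` (pairs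
without `e`, with `e ∈ A`, with `e ∈ B`), after the replacement `max (α, β f x_e, γ f y_e)`, which
is at least as large if `γ ≤ β`, and if `β ≤ γ` after the exchange of `x_e` and `y_e`.
-/

set_option autoImplicit false
set_option linter.unusedSectionVars false

namespace Pool.Agent.Helper19.BK

open MeasureTheory
open scoped ENNReal

variable {ι κ : Type*} [Fintype ι] [DecidableEq ι] [Countable κ]

/-- product over `A` of the first and over `B` of the second (on `S`) or first (off `S`) weights -/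
noncomputable def tm (f : ℝ → ℝ≥0∞) (A B S : Finset ι) (z : ι → ℝ × ℝ) : ℝ≥0∞ :=
  (∏ e ∈ A, f (z e).1) * ∏ e ∈ B, f (if e ∈ S then (z e).2 else (z e).1)

/-- the supremum over the family -/
noncomputable def FS (f : ℝ → ℝ≥0∞) (A B : κ → Finset ι) (S : Finset ι) (z : ι → ℝ × ℝ) : ℝ≥0∞ :=
  ⨆ k, tm f (A k) (B k) S z

/-- exchange the two weights of `e` -/
def sw (e : ι) (z : ι → ℝ × ℝ) : ι → ℝ × ℝ := fun i => if i = e then (z i).swap else z i

theorem prod_ite (A : Finset ι) (e : ι) (g : ι → ℝ≥0∞) :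
    ∏ i ∈ A, g i = (∏ i ∈ A.erase e, g i) * if e ∈ A then g e else 1 := by
  by_cases h : e ∈ A
  · rw [if_pos h, Finset.prod_erase_mul A g h]
  · rw [if_neg h, mul_one, Finset.erase_eq_of_notMem h]

variable {f : ℝ → ℝ≥0∞} {e : ι} {S : Finset ι}

theorem tm_eq (A B : Finset ι) (he : e ∉ S) (z : ι → ℝ × ℝ) :
    tm f A B S z = tm f (A.erase e) (B.erase e) S z *
      ((if e ∈ A then f (z e).1 else 1) * if e ∈ B then f (z e).1 else 1) := by
  unfold tm
  rw [prod_ite A e, prod_ite B e, if_neg he]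
  ring

theorem tm_insert (A B : Finset ι) (z : ι → ℝ × ℝ) :
    tm f A B (insert e S) z = tm f (A.erase e) (B.erase e) S z *
      ((if e ∈ A then f (z e).1 else 1) * if e ∈ B then f (z e).2 else 1) := by
  unfold tm
  rw [prod_ite A e, prod_ite B e, if_pos (Finset.mem_insert_self e S)]
  have h : ∏ i ∈ B.erase e, f (if i ∈ insert e S then (z i).2 else (z i).1) =
      ∏ i ∈ B.erase e, f (if i ∈ S then (z i).2 else (z i).1) := by
    refine Finset.prod_congr rfl fun i hi => ?_
    have hie : i ≠ e := Finset.ne_of_mem_erase hi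
    congr 1
    by_cases hS : i ∈ S
    · rw [if_pos hS, if_pos (Finset.mem_insert_of_mem hS)]
    · rw [if_neg hS, if_neg (by rw [Finset.mem_insert, not_or]; exact ⟨hie, hS⟩)]
  rw [h]
  ring

theorem sw_self (z : ι → ℝ × ℝ) : sw e z e = (z e).swap := if_pos rfl

theorem sw_ne (z : ι → ℝ × ℝ) {i : ι} (h : i ≠ e) : sw e z i = z i := if_neg h

theorem tm_erase_sw (A B : Finset ι) (z : ι → ℝ × ℝ) :
    tm f (A.erase e) (B.erase e) S (sw e z) = tm f (A.erase e) (B.erase e) S z := by
  unfold tm
  congr 1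
  · refine Finset.prod_congr rfl fun i hi => ?_
    rw [sw_ne z (Finset.ne_of_mem_erase hi)]
  · refine Finset.prod_congr rfl fun i hi => ?_
    rw [sw_ne z (Finset.ne_of_mem_erase hi)]

theorem tm_sw (A B : Finset ι) (he : e ∉ S) (z : ι → ℝ × ℝ) :
    tm f A B S (sw e z) = tm f (A.erase e) (B.erase e) S z *
      ((if e ∈ A then f (z e).2 else 1) * if e ∈ B then f (z e).2 else 1) := by
  rw [tm_eq A B he, tm_erase_sw, sw_self]
  rfl

/-- the coefficient of the pairs with `e ∈ C` -/
noncomputable def cff (f : ℝ → ℝ≥0∞) (A B C : κ → Finset ι) (S : Finset ι) (e : ι)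
    (z : ι → ℝ × ℝ) : ℝ≥0∞ :=
  ⨆ k, if e ∈ C k then tm f ((A k).erase e) ((B k).erase e) S z else 0

theorem cff_sw (A B C : κ → Finset ι) (z : ι → ℝ × ℝ) :
    cff f A B C S e (sw e z) = cff f A B C S e z := by
  unfold cff
  simp only [tm_erase_sw]

theorem le_cff (A B C : κ → Finset ι) (z : ι → ℝ × ℝ) {k : κ} (hk : e ∈ C k) :
    tm f ((A k).erase e) ((B k).erase e) S z ≤ cff f A B C S e z := by
  have h := le_iSup (fun k => if e ∈ C k then tm f ((A k).erase e) ((B k).erase e) S z else 0) k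
  simp only [if_pos hk] at h
  exact h

variable {A B : κ → Finset ι}

theorem cff_mul_le_A (hd : ∀ k, Disjoint (A k) (B k)) (z : ι → ℝ × ℝ) :
    cff f A B A S e z * f (z e).1 ≤ FS f A B (insert e S) z := by
  unfold cff
  rw [ENNReal.iSup_mul]
  refine iSup_le fun k => ?_
  by_cases hk : e ∈ A k
  · rw [if_pos hk]
    have hB : e ∉ B k := Finset.disjoint_left.1 (hd k) hk
    have h := tm_insert (f := f) (e := e) (S := S) (A k) (B k) z
    rw [if_pos hk, if_neg hB, mul_one] at h
    rw [← h]
    exact le_iSup (fun k => tm f (A k) (B k) (insert e S) z) k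
  · rw [if_neg hk, zero_mul]
    exact zero_le

theorem cff_mul_le_B (hd : ∀ k, Disjoint (A k) (B k)) (z : ι → ℝ × ℝ) :
    cff f A B B S e z * f (z e).2 ≤ FS f A B (insert e S) z := by
  unfold cff
  rw [ENNReal.iSup_mul]
  refine iSup_le fun k => ?_
  by_cases hk : e ∈ B k
  · rw [if_pos hk]
    have hA : e ∉ A k := Finset.disjoint_right.1 (hd k) hk
    have h := tm_insert (f := f) (e := e) (S := S) (A k) (B k) z
    rw [if_neg hA, if_pos hk, one_mul] at h
    rw [← h]
    exact le_iSup (fun k => tm f (A k) (B k) (insert e S) z) k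
  · rw [if_neg hk, zero_mul]
    exact zero_le

theorem FS_sw_le (hd : ∀ k, Disjoint (A k) (B k)) (he : e ∉ S) (z : ι → ℝ × ℝ)
    (h : cff f A B A S e z ≤ cff f A B B S e z) :
    FS f A B S (sw e z) ≤ FS f A B (insert e S) z := by
  refine iSup_le fun k => ?_
  rw [tm_sw _ _ he]
  by_cases hk : e ∈ A k
  · have hB : e ∉ B k := Finset.disjoint_left.1 (hd k) hk
    rw [if_pos hk, if_neg hB, mul_one]
    refine le_trans ?_ (cff_mul_le_B hd z)
    exact mul_le_mul_left ((le_cff A B A z hk).trans h) _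
  · have h1 := tm_insert (f := f) (e := e) (S := S) (A k) (B k) z
    rw [if_neg hk] at h1 ⊢
    rw [← h1]
    exact le_iSup (fun k => tm f (A k) (B k) (insert e S) z) k

theorem FS_le (hd : ∀ k, Disjoint (A k) (B k)) (he : e ∉ S) (z : ι → ℝ × ℝ)
    (h : cff f A B B S e z ≤ cff f A B A S e z) :
    FS f A B S z ≤ FS f A B (insert e S) z := by
  refine iSup_le fun k => ?_
  rw [tm_eq _ _ he]
  by_cases hk : e ∈ B k
  · have hA : e ∉ A k := Finset.disjoint_right.1 (hd k) hk
    rw [if_neg hA, if_pos hk, one_mul]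
    refine le_trans ?_ (cff_mul_le_A hd z)
    exact mul_le_mul_left ((le_cff A B B z hk).trans h) _
  · have h1 := tm_insert (f := f) (e := e) (S := S) (A k) (B k) z
    rw [if_neg hk] at h1 ⊢
    rw [← h1]
    exact le_iSup (fun k => tm f (A k) (B k) (insert e S) z) k

theorem measurable_tm (hf : Measurable f) (A B S : Finset ι) : Measurable (tm f A B S) := by
  unfold tm
  refine Measurable.mul ?_ ?_
  · exact Finset.measurable_prod _ fun i _ => hf.comp (measurable_pi_apply i).fst
  · refine Finset.measurable_prod _ fun i _ => ?_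
    by_cases h : i ∈ S
    · simp only [if_pos h]
      exact hf.comp (measurable_pi_apply i).snd
    · simp only [if_neg h]
      exact hf.comp (measurable_pi_apply i).fst

theorem measurable_FS (hf : Measurable f) (S : Finset ι) : Measurable (FS f A B S) :=
  Measurable.iSup fun k => measurable_tm hf (A k) (B k) S

theorem measurable_cff (hf : Measurable f) (C : κ → Finset ι) (S : Finset ι) (e : ι) :
    Measurable (cff f A B C S e) := by
  refine Measurable.iSup fun k => ?_
  by_cases h : e ∈ C k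
  · simp only [if_pos h]
    exact measurable_tm hf _ _ S
  · simp only [if_neg h]
    exact measurable_const

variable (ν : ι → Measure ℝ) [∀ i, IsProbabilityMeasure (ν i)]

/-- two independent copies of all the weights -/
noncomputable def dbl : Measure (ι → ℝ × ℝ) := Measure.pi fun i => (ν i).prod (ν i)

theorem mp_sw (e : ι) : MeasurePreserving (sw e) (dbl ν) (dbl ν) := by
  unfold dbl
  have h : ∀ i, MeasurePreserving (fun p : ℝ × ℝ => if i = e then p.swap else p)
      ((ν i).prod (ν i)) ((ν i).prod (ν i)) := by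
    intro i
    by_cases hi : i = e
    · simp only [if_pos hi]
      exact Measure.measurePreserving_swap
    · simp only [if_neg hi]
      exact MeasurePreserving.id _
  exact measurePreserving_pi _ _ h

theorem step (hf : Measurable f) (hd : ∀ k, Disjoint (A k) (B k)) (he : e ∉ S) :
    ∫⁻ z, FS f A B S z ∂(dbl ν) ≤ ∫⁻ z, FS f A B (insert e S) z ∂(dbl ν) := by
  obtain ⟨G, hG⟩ : ∃ G : Set (ι → ℝ × ℝ), G = {z | cff f A B A S e z ≤ cff f A B B S e z} :=
    ⟨_, rfl⟩
  have hGm : MeasurableSet G := by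
    rw [hG]
    exact measurableSet_le (measurable_cff hf _ S e) (measurable_cff hf _ S e)
  have hGs : sw e ⁻¹' G = G := by
    ext z
    rw [hG]
    show cff f A B A S e (sw e z) ≤ cff f A B B S e (sw e z) ↔ _
    rw [cff_sw, cff_sw]
    rfl
  have h1 : ∫⁻ z in G, FS f A B S z ∂(dbl ν) = ∫⁻ z in G, FS f A B S (sw e z) ∂(dbl ν) := by
    rw [← (mp_sw ν e).setLIntegral_comp_preimage hGm (measurable_FS hf S), hGs]
  rw [← lintegral_add_compl _ hGm, h1, ← lintegral_add_compl (FS f A B (insert e S)) hGm]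
  refine add_le_add ?_ ?_
  · refine setLIntegral_mono (measurable_FS hf _) fun z hz => ?_
    rw [hG] at hz
    exact FS_sw_le hd he z hz
  · refine setLIntegral_mono (measurable_FS hf _) fun z hz => ?_
    rw [hG] at hz
    have hz' : ¬ cff f A B A S e z ≤ cff f A B B S e z := hz
    exact FS_le hd he z (not_le.1 hz').le

theorem chain (hf : Measurable f) (hd : ∀ k, Disjoint (A k) (B k)) (S : Finset ι) :
    ∫⁻ z, FS f A B ∅ z ∂(dbl ν) ≤ ∫⁻ z, FS f A B S z ∂(dbl ν) := by
  induction S using Finset.induction_on with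
  | empty => exact le_rfl
  | insert e S he ih => exact ih.trans (step ν hf hd he)

/-- **BK** on a finite product -/
theorem bk_pi (hf : Measurable f) (hd : ∀ k, Disjoint (A k) (B k)) :
    ∫⁻ x, ⨆ k, (∏ e ∈ A k, f (x e)) * ∏ e ∈ B k, f (x e) ∂(Measure.pi ν) ≤
      (∫⁻ x, ⨆ k, ∏ e ∈ A k, f (x e) ∂(Measure.pi ν)) *
        ∫⁻ x, ⨆ k, ∏ e ∈ B k, f (x e) ∂(Measure.pi ν) := by
  have hmA : ∀ C : κ → Finset ι, Measurable fun x : ι → ℝ => ⨆ k, ∏ e ∈ C k, f (x e) := fun C =>
    Measurable.iSup fun k => Finset.measurable_prod _ fun i _ => hf.comp (measurable_pi_apply i)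
  have hfst : MeasurePreserving (fun (z : ι → ℝ × ℝ) i => (z i).1) (dbl ν) (Measure.pi ν) :=
    measurePreserving_pi _ _ fun i => measurePreserving_fst
  have h1 : ∫⁻ x, ⨆ k, (∏ e ∈ A k, f (x e)) * ∏ e ∈ B k, f (x e) ∂(Measure.pi ν) =
      ∫⁻ z, FS f A B ∅ z ∂(dbl ν) := by
    rw [← hfst.lintegral_comp]
    · refine lintegral_congr fun z => ?_
      unfold FS tm
      simp
    · exact Measurable.iSup fun k =>
        (Finset.measurable_prod _ fun i _ => hf.comp (measurable_pi_apply i)).mul
          (Finset.measurable_prod _ fun i _ => hf.comp (measurable_pi_apply i))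
  rw [h1]
  refine (chain ν hf hd Finset.univ).trans ?_
  have h2 : ∀ z, FS f A B Finset.univ z ≤
      (⨆ k, ∏ e ∈ A k, f (z e).1) * ⨆ k, ∏ e ∈ B k, f (z e).2 := by
    intro z
    refine iSup_le fun k => ?_
    unfold tm
    simp only [Finset.mem_univ, if_true]
    exact mul_le_mul' (le_iSup (fun k => ∏ e ∈ A k, f (z e).1) k)
      (le_iSup (fun k => ∏ e ∈ B k, f (z e).2) k)
  refine (lintegral_mono h2).trans (le_of_eq ?_)
  have h3 := measurePreserving_arrowProdEquivProdArrow ℝ ℝ ι ν ν
  have h4 := h3.lintegral_comp (f := fun p : (ι → ℝ) × (ι → ℝ) =>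
    (⨆ k, ∏ e ∈ A k, f (p.1 e)) * ⨆ k, ∏ e ∈ B k, f (p.2 e))
    (((hmA A).comp measurable_fst).mul ((hmA B).comp measurable_snd))
  rw [lintegral_prod_mul (hmA A).aemeasurable (hmA B).aemeasurable] at h4
  exact h4

end Pool.Agent.Helper19.BK
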