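import Pool.Agent.Helper19.BK.Env
import Pool.Agent.Helper51.NP.A

/-!
# BK for passage times: cutting a path at one vertex

`Env P X ν a b`; no constant depends on `a`.  `bk_cells`: a countable family of sets `D q` of
vertices within distance `R` of the vertices `r q`; the minimal paths from `x` to `y` through some
vertex of a `D q` contribute at most `exp (2 l b R) ∑ Z(x, r q) Z(r q, y)` to
`Z(x, y) = E exp (- l T(x, y))`.  `slab_step`: the sum over the cells of side `w` near the level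
`t`.
-/

set_option autoImplicit false

namespace Pool.Agent.Helper19.BK

open MeasureTheory ProbabilityTheory Filter
open Pool.Agent.Helper79.GR Pool.Agent.Helper79.GQ Pool.Agent.Helper51.NP
open scoped ENNReal

variable {Ω : Type*} [MeasurableSpace Ω] {P : Measure Ω} {d : ℕ} {X : Edge d → Ω → ℝ}
  {ν : Measure ℝ} {a b l : ℝ}

open Classical in
theorem prod_eds (c : Edge d → ℝ) (l : ℝ) (x : V d) (w : List (St d)) (hw : (eds x w).Nodup) :
    ∏ e ∈ (eds x w).toFinset, ENNReal.ofReal (Real.exp (-(l * c e))) =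
      ENNReal.ofReal (Real.exp (-(l * cost c x w))) := by
  rw [← ENNReal.ofReal_prod_of_nonneg fun e _ => (Real.exp_pos _).le, ← Real.exp_sum]
  congr 2
  rw [Finset.sum_neg_distrib, ← Finset.mul_sum, cost_eq_sum, List.sum_toFinset _ hw]

/-- walks from `x` to `y` without repeated edges, cut into two pieces at a vertex of `D` -/
def Pr (D : Set (V d)) (x y : V d) : Type :=
  {p : List (St d) × List (St d) // pos x p.1 ∈ D ∧ pos x (p.1 ++ p.2) = y ∧
    (eds x (p.1 ++ p.2)).Nodup}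

instance (D : Set (V d)) (x y : V d) : Countable (Pr D x y) := Subtype.countable

theorem ofReal_Z (h : Env P X ν a b) (l : ℝ) (x y : V d) :
    ENNReal.ofReal (Z P X l x y) =
      ∫⁻ ω, ENNReal.ofReal (Real.exp (-(l * T (cf X ω) x y))) ∂P := by
  unfold Z
  have h1 := integrable_exp_T h (-l) x y
  simp only [neg_mul] at h1
  exact ofReal_integral_eq_lintegral_ofReal h1 (Eventually.of_forall fun ω => (Real.exp_pos _).le)

theorem bk_one (h : Env P X ν a b) (hb : 0 ≤ b) (hl : 0 ≤ l) (D : Set (V d)) (r : V d) (R : ℝ)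
    (hR : ∀ z ∈ D, n1 (z - r) ≤ R) (x y : V d) :
    ∫⁻ ω, ⨆ p : Pr D x y, ENNReal.ofReal
      (Real.exp (-(l * cost (cf X ω) x (p.1.1 ++ p.1.2)))) ∂P ≤
      ENNReal.ofReal (Real.exp (2 * l * b * R)) *
        (ENNReal.ofReal (Z P X l x r) * ENNReal.ofReal (Z P X l r y)) := by
  classical
  rcases isEmpty_or_nonempty (Pr D x y) with he | hne
  · simp
  have hbR : ∀ z ∈ D, b * n1 (z - r) ≤ b * R := fun z hz =>
    mul_le_mul_of_nonneg_left (hR z hz) hb
  have key := bk (κ := Pr D x y) (f := fun t => ENNReal.ofReal (Real.exp (-(l * t)))) h.meas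
    h.indep (by fun_prop) (A := fun p => (eds x p.1.1).toFinset)
    (B := fun p => (eds (pos x p.1.1) p.1.2).toFinset) (fun p => by
      have h1 := p.2.2.2
      rw [eds_append, List.nodup_append] at h1
      rw [Finset.disjoint_left]
      intro e h2 h3
      rw [List.mem_toFinset] at h2 h3
      exact h1.2.2 e h2 e h3 rfl)
  have hn1 : ∀ p : Pr D x y, (eds x p.1.1).Nodup := fun p => by
    have h1 := p.2.2.2
    rw [eds_append, List.nodup_append] at h1
    exact h1.1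
  have hn2 : ∀ p : Pr D x y, (eds (pos x p.1.1) p.1.2).Nodup := fun p => by
    have h1 := p.2.2.2
    rw [eds_append, List.nodup_append] at h1
    exact h1.2.1
  have e1 : ∀ ω (p : Pr D x y), ∏ e ∈ (eds x p.1.1).toFinset,
      ENNReal.ofReal (Real.exp (-(l * X e ω))) =
        ENNReal.ofReal (Real.exp (-(l * cost (cf X ω) x p.1.1))) := fun ω p =>
    prod_eds (cf X ω) l x p.1.1 (hn1 p)
  have e2 : ∀ ω (p : Pr D x y), ∏ e ∈ (eds (pos x p.1.1) p.1.2).toFinset,
      ENNReal.ofReal (Real.exp (-(l * X e ω))) =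
        ENNReal.ofReal (Real.exp (-(l * cost (cf X ω) (pos x p.1.1) p.1.2))) := fun ω p =>
    prod_eds (cf X ω) l (pos x p.1.1) p.1.2 (hn2 p)
  simp only [e1, e2] at key
  have e3 : ∀ ω (p : Pr D x y), ENNReal.ofReal (Real.exp (-(l * cost (cf X ω) x p.1.1))) *
      ENNReal.ofReal (Real.exp (-(l * cost (cf X ω) (pos x p.1.1) p.1.2))) =
        ENNReal.ofReal (Real.exp (-(l * cost (cf X ω) x (p.1.1 ++ p.1.2)))) := by
    intro ω p
    rw [← ENNReal.ofReal_mul (Real.exp_pos _).le, ← Real.exp_add, cost_append]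
    congr 2
    ring
  simp only [e3] at key
  refine key.trans ?_
  have f1 : ∫⁻ ω, ⨆ p : Pr D x y, ENNReal.ofReal (Real.exp (-(l * cost (cf X ω) x p.1.1))) ∂P ≤
      ENNReal.ofReal (Real.exp (l * (b * R))) * ENNReal.ofReal (Z P X l x r) := by
    rw [ofReal_Z h, ← lintegral_const_mul' _ _ ENNReal.ofReal_ne_top]
    refine lintegral_mono fun ω => iSup_le fun p => ?_
    rw [← ENNReal.ofReal_mul (Real.exp_pos _).le, ← Real.exp_add]
    refine ENNReal.ofReal_le_ofReal (Real.exp_le_exp.2 ?_)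
    have g1 := T_triangle (h.cf_bd ω) x (pos x p.1.1) r
    have g2 := T_le_cost (h.cf_bd ω) (x := x) (w := p.1.1) rfl
    have g3 := T_le (h.cf_bd ω) (pos x p.1.1) r
    rw [n1_sub_comm] at g3
    have g4 := hbR _ p.2.1
    have g5 : T (cf X ω) x r ≤ cost (cf X ω) x p.1.1 + b * R := by linarith
    have g6 := mul_le_mul_of_nonneg_left g5 hl
    linarith
  have f2 : ∫⁻ ω, ⨆ p : Pr D x y,
      ENNReal.ofReal (Real.exp (-(l * cost (cf X ω) (pos x p.1.1) p.1.2))) ∂P ≤
      ENNReal.ofReal (Real.exp (l * (b * R))) * ENNReal.ofReal (Z P X l r y) := by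
    rw [ofReal_Z h, ← lintegral_const_mul' _ _ ENNReal.ofReal_ne_top]
    refine lintegral_mono fun ω => iSup_le fun p => ?_
    rw [← ENNReal.ofReal_mul (Real.exp_pos _).le, ← Real.exp_add]
    refine ENNReal.ofReal_le_ofReal (Real.exp_le_exp.2 ?_)
    have g1 := T_triangle (h.cf_bd ω) r (pos x p.1.1) y
    have g2 := T_le_cost (h.cf_bd ω) (x := pos x p.1.1) (w := p.1.2) (y := y) (by
      rw [← pos_append]
      exact p.2.2.1)
    have g3 := T_le (h.cf_bd ω) r (pos x p.1.1)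
    have g4 := hbR _ p.2.1
    have g5 : T (cf X ω) r y ≤ cost (cf X ω) (pos x p.1.1) p.1.2 + b * R := by linarith
    have g6 := mul_le_mul_of_nonneg_left g5 hl
    linarith
  refine (mul_le_mul' f1 f2).trans (le_of_eq ?_)
  have g : ENNReal.ofReal (Real.exp (2 * l * b * R)) =
      ENNReal.ofReal (Real.exp (l * (b * R))) * ENNReal.ofReal (Real.exp (l * (b * R))) := by
    rw [← ENNReal.ofReal_mul (Real.exp_pos _).le, ← Real.exp_add]
    congr 2
    ring
  rw [g]
  ring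

/-- **Cutting at a vertex of one of the sets `D q`.** -/
theorem bk_cells (h : Env P X ν a b) (hb : 0 ≤ b) (hl : 0 ≤ l) {Q : Type*} [Countable Q]
    (D : Q → Set (V d)) (r : Q → V d) (R : ℝ) (hR : ∀ q, ∀ z ∈ D q, n1 (z - r q) ≤ R)
    (x y : V d) :
    ∫⁻ ω, ⨆ p : Pr (⋃ q, D q) x y, ENNReal.ofReal
      (Real.exp (-(l * cost (cf X ω) x (p.1.1 ++ p.1.2)))) ∂P ≤
      ENNReal.ofReal (Real.exp (2 * l * b * R)) *
        ∑' q, ENNReal.ofReal (Z P X l x (r q)) * ENNReal.ofReal (Z P X l (r q) y) := by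
  rw [← ENNReal.tsum_mul_left]
  have hm : ∀ w : List (St d), Measurable fun ω => cost (cf X ω) x w := fun w =>
    measurable_cost h x w
  have h1 : ∀ ω, ⨆ p : Pr (⋃ q, D q) x y, ENNReal.ofReal
      (Real.exp (-(l * cost (cf X ω) x (p.1.1 ++ p.1.2)))) ≤
      ∑' q, ⨆ p : Pr (D q) x y, ENNReal.ofReal
        (Real.exp (-(l * cost (cf X ω) x (p.1.1 ++ p.1.2)))) := by
    intro ω
    refine iSup_le fun p => ?_
    obtain ⟨q, hq⟩ := Set.mem_iUnion.1 p.2.1
    refine le_trans ?_ (ENNReal.le_tsum q)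
    exact le_iSup (fun p : Pr (D q) x y => ENNReal.ofReal
      (Real.exp (-(l * cost (cf X ω) x (p.1.1 ++ p.1.2))))) ⟨p.1, hq, p.2.2⟩
  refine (lintegral_mono h1).trans ?_
  rw [lintegral_tsum]
  · exact ENNReal.tsum_le_tsum fun q => bk_one h hb hl (D q) (r q) R (hR q) x y
  · intro q
    have : Measurable fun ω => ⨆ p : Pr (D q) x y, ENNReal.ofReal
        (Real.exp (-(l * cost (cf X ω) x (p.1.1 ++ p.1.2)))) :=
      Measurable.iSup fun p => by
        have := hm (p.1.1 ++ p.1.2)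
        fun_prop
    exact this.aemeasurable

/-- if every minimal path from `x` to `y` meets one of the sets `D q` -/
theorem Z_le_cells (h : Env P X ν a b) (hb : 0 ≤ b) (hl : 0 ≤ l) {Q : Type*} [Countable Q]
    (D : Q → Set (V d)) (r : Q → V d) (R : ℝ) (hR : ∀ q, ∀ z ∈ D q, n1 (z - r q) ≤ R)
    (x y : V d) (hD : ∀ w, pos x w = y → ∃ w₁ w₂, w = w₁ ++ w₂ ∧ ∃ q, pos x w₁ ∈ D q) :
    ENNReal.ofReal (Z P X l x y) ≤
      ENNReal.ofReal (Real.exp (2 * l * b * R)) *
        ∑' q, ENNReal.ofReal (Z P X l x (r q)) * ENNReal.ofReal (Z P X l (r q) y) := by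
  refine le_trans ?_ (bk_cells h hb hl D r R hR x y)
  rw [ofReal_Z h]
  refine lintegral_mono fun ω => ?_
  obtain ⟨w, hw, hc⟩ := exists_min (h.cf_bd ω) x y
  have hg : Geo (cf X ω) x w := (geo_iff (h.cf_bd ω) x w).2 (by rw [hw, hc])
  have hn := Geo.nodup (h.cf_bd ω) hg
  obtain ⟨w₁, w₂, rfl, q, hq⟩ := hD w hw
  rw [← hc]
  exact le_iSup (fun p : Pr (⋃ q, D q) x y => ENNReal.ofReal
    (Real.exp (-(l * cost (cf X ω) x (p.1.1 ++ p.1.2)))))
    ⟨(w₁, w₂), Set.mem_iUnion.2 ⟨q, hq⟩, hw, hn⟩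

/-- the first vertex of a walk at a height at least `t` -/
theorem first_hit {H : V d → ℝ} {c₀ : ℝ} (hc₀ : 0 ≤ c₀) (hH : ∀ x s, |H (x + sv s) - H x| ≤ c₀) {t : ℝ}
    (w : List (St d)) : ∀ x, H x ≤ t → t ≤ H (pos x w) →
      ∃ w₁ w₂, w = w₁ ++ w₂ ∧ |H (pos x w₁) - t| ≤ c₀ := by
  induction w with
  | nil =>
    intro x h1 h2
    refine ⟨[], [], rfl, ?_⟩
    have h3 : H (pos x []) = t := le_antisymm h1 h2
    rw [h3, sub_self, abs_zero]
    exact hc₀
  | cons s w ih =>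
    intro x h1 h2
    by_cases h3 : H (x + sv s) ≤ t
    · obtain ⟨w₁, w₂, h4, h5⟩ := ih (x + sv s) h3 h2
      exact ⟨s :: w₁, w₂, by rw [h4]; rfl, h5⟩
    · refine ⟨[s], w, rfl, ?_⟩
      have h4 := hH x s
      show |H (x + sv s) - t| ≤ c₀
      rw [abs_le] at h4 ⊢
      push Not at h3
      constructor <;> linarith

theorem abs_rv_le (H : F d →L[ℝ] ℝ) {z : V d} {k : ℝ} (hk : 0 ≤ k) (hz : ∀ i, |(z i : ℝ)| ≤ k) :
    |H (rv z)| ≤ ‖H‖ * k := by
  have h1 := H.le_opNorm (rv z)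
  rw [Real.norm_eq_abs] at h1
  refine h1.trans (mul_le_mul_of_nonneg_left ?_ (norm_nonneg H))
  rw [pi_norm_le_iff_of_nonneg hk]
  intro i
  rw [Real.norm_eq_abs]
  exact hz i

theorem abs_sv_le (s : St d) (i : Fin d) : |((sv s i : ℤ) : ℝ)| ≤ 1 := by
  rcases s with ⟨j, _ | _⟩ <;> rcases eq_or_ne i j with rfl | hij <;>
    simp [sv, *]

/-- **One slab step.**  Cells of side `w`, the level `t`; no constant depends on `a`. -/
theorem slab_step (h : Env P X ν a b) (hb : 0 ≤ b) (hl : 0 ≤ l) (H : F d →L[ℝ] ℝ) {w : ℕ}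
    (hw : 1 ≤ w) {K : ℝ} (hK : 2 * ‖H‖ * w ≤ K) {t : ℝ} (ht : 0 ≤ t) {x : V d}
    (hx : t ≤ H (rv x)) :
    ENNReal.ofReal (Z P X l 0 x) ≤ ENNReal.ofReal (Real.exp (2 * l * b * (d * w))) *
      ∑' q : {q : V d // |H (rv (w • q)) - t| ≤ K},
        ENNReal.ofReal (Z P X l 0 (w • q.1)) * ENNReal.ofReal (Z P X l 0 (x - w • q.1)) := by
  have hcomm : ∀ q : V d, Z P X l 0 (x - w • q) = Z P X l (w • q) x := fun q =>
    (Z_eq_zero_sub h l (w • q) x).symm
  simp only [hcomm]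
  have hw0 : (0 : ℤ) < w := by exact_mod_cast hw
  have hw1 : (1 : ℝ) ≤ w := by exact_mod_cast hw
  -- rounding
  have hround : ∀ z : V d, ∃ q : V d, ∀ i, |(((z - w • q) i : ℤ) : ℝ)| ≤ w := by
    intro z
    refine ⟨fun i => z i / w, fun i => ?_⟩
    have h1 := Int.emod_nonneg (z i) hw0.ne'
    have h2 := Int.emod_lt_of_pos (z i) hw0
    have h3 : (z - w • fun i => z i / (w : ℤ)) i = z i % w := by
      rw [Pi.sub_apply, Pi.smul_apply, nsmul_eq_mul, Int.emod_def]
    rw [h3, abs_of_nonneg (by exact_mod_cast h1)]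
    exact_mod_cast h2.le
  refine Z_le_cells h hb hl (Q := {q : V d // |H (rv (w • q)) - t| ≤ K})
    (fun q => {z | ∀ i, |(((z - w • q.1) i : ℤ) : ℝ)| ≤ w}) (fun q => w • q.1) (d * w)
    (fun q z hz => ?_) 0 x (fun u hu => ?_)
  · unfold n1
    calc ∑ i, |(((z - w • q.1) i : ℤ) : ℝ)| ≤ ∑ _i : Fin d, (w : ℝ) :=
          Finset.sum_le_sum fun i _ => hz i
      _ = d * w := by simp
  · have hH : ∀ (y : V d) (s : St d), |H (rv (y + sv s)) - H (rv y)| ≤ ‖H‖ := by
      intro y s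
      rw [rv_add, map_add, add_sub_cancel_left]
      have h1 := abs_rv_le H (z := sv s) zero_le_one (abs_sv_le s)
      rwa [mul_one] at h1
    have h0 : H (rv (0 : V d)) ≤ t := by
      have e : rv (0 : V d) = 0 := by
        funext i
        simp [rv]
      rw [e, map_zero]
      exact ht
    obtain ⟨w₁, w₂, h1, h2⟩ := first_hit (H := fun y => H (rv y)) (norm_nonneg H) hH u 0 h0
      (by rw [hu]; exact hx)
    obtain ⟨q, hq⟩ := hround (pos 0 w₁)
    have h3 : |H (rv (w • q)) - t| ≤ K := by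
      refine le_trans ?_ hK
      have h4 := abs_rv_le H (by positivity) hq
      have e : rv (pos 0 w₁) = rv (pos 0 w₁ - w • q) + rv (w • q) := by
        rw [← rv_add, sub_add_cancel]
      rw [e, map_add] at h2
      rw [abs_le] at h2 h4 ⊢
      have h5 : ‖H‖ ≤ ‖H‖ * w := le_mul_of_one_le_right (norm_nonneg H) hw1
      constructor <;> nlinarith
    exact ⟨w₁, w₂, h1, ⟨q, h3⟩, hq⟩

/-- leaving a set: if every minimal path which uses an edge off `S` meets `D`, then cutting at a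
vertex of `D` costs nothing -/
theorem Z_le_through (h : Env P X ν a b) (hb : 0 ≤ b) (hl : 0 ≤ l) (D : Set (V d)) (x y : V d)
    (A : Set Ω) (hA : MeasurableSet A)
    (hD : ∀ ω ∈ A, ∃ w₁ w₂, pos x (w₁ ++ w₂) = y ∧ Geo (cf X ω) x (w₁ ++ w₂) ∧ pos x w₁ ∈ D) :
    ∫⁻ ω in A, ENNReal.ofReal (Real.exp (-(l * T (cf X ω) x y))) ∂P ≤
      ∑' z : D, ENNReal.ofReal (Z P X l x z) * ENNReal.ofReal (Z P X l z y) := by
  have h1 := bk_cells h hb hl (Q := D) (fun z => {z.1}) (fun z => z.1) 0 (fun q z hz => by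
    have hz' : z = q.1 := hz
    rw [hz', sub_self, n1_zero]) x y
  rw [mul_zero, Real.exp_zero, ENNReal.ofReal_one, one_mul] at h1
  refine le_trans ?_ h1
  rw [← lintegral_indicator hA]
  refine lintegral_mono fun ω => ?_
  by_cases hω : ω ∈ A
  · rw [Set.indicator_of_mem hω]
    obtain ⟨w₁, w₂, h2, h3, h4⟩ := hD ω hω
    have h5 := (geo_iff (h.cf_bd ω) x (w₁ ++ w₂)).1 h3
    rw [h2] at h5
    rw [← h5]
    exact le_iSup (fun p : Pr (⋃ q : D, {q.1}) x y => ENNReal.ofReal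
      (Real.exp (-(l * cost (cf X ω) x (p.1.1 ++ p.1.2)))))
      ⟨(w₁, w₂), Set.mem_iUnion.2 ⟨⟨_, h4⟩, rfl⟩, h2, Geo.nodup (h.cf_bd ω) h3⟩
  · rw [Set.indicator_of_notMem hω]
    exact zero_le

end Pool.Agent.Helper19.BK
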